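import Pool.Agent.Helper94.TV2.LL

/-!
# A linear order and an equivalence relation code the square grids

`R 0`: row by row; `R 1`: same column; mark: the ends of the rows.
-/

set_option autoImplicit false

namespace Pool.Agent.Helper94.TV2

open Pool.Agent.Helper20.Spectra Pool.Agent.Helper20.OP Pool.Agent.Helper20.EX2
open Pool.Agent.Helper32.TV2 Pool.Agent.Helper29.C2

/-- one step to the right: the next point in the order, not from the end of a row -/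
def leH (V : Type) (R : Str (2 + 1) V) (x y : V) : Prop :=
  R 0 x y ∧ (∀ z, ¬ (R 0 x z ∧ R 0 z y)) ∧ ¬ R 2 x x

/-- one step up: the next point of the class in the order -/
def leU (V : Type) (R : Str (2 + 1) V) (x y : V) : Prop :=
  R 1 x y ∧ R 0 x y ∧ ∀ z, ¬ (R 1 x z ∧ R 0 x z ∧ R 0 z y)

/-- the coding -/
def codeLE : Coding 2 1 where
  dom := fun _ _ _ => True
  h := leH
  u := leU
  ax := fun _ _ => True
  md_dom := MDef.const True
  md_h := (MDef.rel 0 0 1).and ((MDef.all (P := fun _ R v _ z => ¬ (R 0 (v 0) z ∧ R 0 z (v 1)))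
    ((MDef.rel 0 1 0).and (MDef.rel 0 0 2)).not).and (MDef.rel 2 0 0).not)
  md_u := (MDef.rel 1 0 1).and ((MDef.rel 0 0 1).and
    (MDef.all (P := fun _ R v _ z => ¬ (R 1 (v 0) z ∧ R 0 (v 0) z ∧ R 0 z (v 1)))
      ((MDef.rel 1 1 0).and ((MDef.rel 0 1 0).and (MDef.rel 0 0 2))).not))
  md_ax := MDef.const True
  c := 1
  hc := le_rfl
  size := fun V _ R _ => by
    rw [one_mul]
    exact (Nat.card_congr (Equiv.subtypeUnivEquiv (fun _ => trivial))).symm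

/-- row by row, same column -/
def leR (n : ℕ) (i : Fin 2) (x y : Fin n × Fin n) : Prop :=
  if i = 0 then (x.2 : ℕ) < y.2 ∨ (x.2 : ℕ) = y.2 ∧ (x.1 : ℕ) < y.1 else (x.1 : ℕ) = y.1

/-- the ends of the rows -/
def leS (n : ℕ) (_ : Fin 1) : Set (Fin n × Fin n) := {x | (x.1 : ℕ) + 1 = n}

/-- the next point of the column -/
lemma next_class {n : ℕ} (x y : Fin n × Fin n) :
    ((x.1 : ℕ) = y.1 ∧ ((x.2 : ℕ) < y.2 ∨ (x.2 : ℕ) = y.2 ∧ (x.1 : ℕ) < y.1) ∧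
      ∀ z : Fin n × Fin n, ¬ ((x.1 : ℕ) = z.1 ∧ ((x.2 : ℕ) < z.2 ∨ (x.2 : ℕ) = z.2 ∧ (x.1 : ℕ) < z.1) ∧
        ((z.2 : ℕ) < y.2 ∨ (z.2 : ℕ) = y.2 ∧ (z.1 : ℕ) < y.1))) ↔ gu n x y := by
  constructor
  · rintro ⟨h1, h2, h3⟩
    have h4 : (x.2 : ℕ) + 1 < n ∨ n ≤ (x.2 : ℕ) + 1 := by omega
    have h5 := y.2.is_lt
    have h6 : (x.2 : ℕ) < y.2 := by omega
    have h7 : (x.2 : ℕ) + 1 < n ∨ (x.2 : ℕ) + 1 = y.2 := by omega
    have h8 : ¬ (x.2 : ℕ) + 1 < y.2 := fun h =>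
      h3 (x.1, ⟨(x.2 : ℕ) + 1, by omega⟩) ⟨rfl, Or.inl (Nat.lt_succ_self _), Or.inl h⟩
    show (x.1 : ℕ) = y.1 ∧ (x.2 : ℕ) + 1 = y.2
    omega
  · rintro ⟨h1, h2⟩
    exact ⟨h1, by omega, fun z hz => by omega⟩

theorem t_LE : StmtLE := by
  refine ⟨1, codeLE, fun n hn => ⟨Fin n × Fin n, inferInstance, leR n, leS n,
    ⟨lin_row n, ⟨fun _ => rfl, fun h => Eq.symm h, fun h h' => Eq.trans h h'⟩⟩, trivial,
    Equiv.subtypeUnivEquiv (fun _ => trivial), ?_, ?_⟩⟩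
  · intro x y
    have e2 : ∀ a, mkM 1 (leR n) (leS n) 2 a a ↔ (a.1 : ℕ) + 1 = n := fun a =>
      (mkM_mark (leR n) (leS n) 0 a a).trans ⟨fun h => h.2, fun h => ⟨rfl, h⟩⟩
    show leH _ _ x.1 y.1 ↔ gh n x.1 y.1
    rw [← next_row x.1 y.1]
    exact and_congr Iff.rfl (and_congr Iff.rfl (not_congr (e2 _)))
  · intro x y
    show leU _ _ x.1 y.1 ↔ gu n x.1 y.1
    exact next_class x.1 y.1

end Pool.Agent.Helper94.TV2
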