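import Pool.Agent.Helper32.TV2.Defs

/-!
# Two linear orders code the square grids

`R 0`: row by row; `R 1`: column by column; marks: the ends of the rows, the ends of the columns.
-/

set_option autoImplicit false

namespace Pool.Agent.Helper94.TV2

open Pool.Agent.Helper20.Spectra Pool.Agent.Helper20.OP Pool.Agent.Helper20.EX2
open Pool.Agent.Helper32.TV2 Pool.Agent.Helper29.C2

/-- one step to the right: the next point in the first order, not from the end of a row -/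
def llH (V : Type) (R : Str (2 + 2) V) (x y : V) : Prop :=
  R 0 x y ∧ (∀ z, ¬ (R 0 x z ∧ R 0 z y)) ∧ ¬ R 2 x x

/-- one step up: the next point in the second order, not from the end of a column -/
def llU (V : Type) (R : Str (2 + 2) V) (x y : V) : Prop :=
  R 1 x y ∧ (∀ z, ¬ (R 1 x z ∧ R 1 z y)) ∧ ¬ R 3 x x

/-- the coding -/
def codeLL : Coding 2 2 where
  dom := fun _ _ _ => True
  h := llH
  u := llU
  ax := fun _ _ => True
  md_dom := MDef.const True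
  md_h := (MDef.rel 0 0 1).and ((MDef.all (P := fun _ R v _ z => ¬ (R 0 (v 0) z ∧ R 0 z (v 1)))
    ((MDef.rel 0 1 0).and (MDef.rel 0 0 2)).not).and (MDef.rel 2 0 0).not)
  md_u := (MDef.rel 1 0 1).and ((MDef.all (P := fun _ R v _ z => ¬ (R 1 (v 0) z ∧ R 1 z (v 1)))
    ((MDef.rel 1 1 0).and (MDef.rel 1 0 2)).not).and (MDef.rel 3 0 0).not)
  md_ax := MDef.const True
  c := 1
  hc := le_rfl
  size := fun V _ R _ => by
    rw [one_mul]
    exact (Nat.card_congr (Equiv.subtypeUnivEquiv (fun _ => trivial))).symm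

/-- row by row, column by column -/
def llR (n : ℕ) (i : Fin 2) (x y : Fin n × Fin n) : Prop :=
  if i = 0 then (x.2 : ℕ) < y.2 ∨ (x.2 : ℕ) = y.2 ∧ (x.1 : ℕ) < y.1
  else (x.1 : ℕ) < y.1 ∨ (x.1 : ℕ) = y.1 ∧ (x.2 : ℕ) < y.2

/-- the ends of the rows, of the columns -/
def llS (n : ℕ) (i : Fin 2) : Set (Fin n × Fin n) :=
  {x | if i = 0 then (x.1 : ℕ) + 1 = n else (x.2 : ℕ) + 1 = n}

lemma lin_row (n : ℕ) : IsLin (fun x y : Fin n × Fin n =>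
    (x.2 : ℕ) < y.2 ∨ (x.2 : ℕ) = y.2 ∧ (x.1 : ℕ) < y.1) where
  irr := fun x h => by omega
  trans := fun x y z h h' => by omega
  total := fun x y h => by
    by_contra hc
    exact h (ext20 (by omega) (by omega))

lemma lin_col (n : ℕ) : IsLin (fun x y : Fin n × Fin n =>
    (x.1 : ℕ) < y.1 ∨ (x.1 : ℕ) = y.1 ∧ (x.2 : ℕ) < y.2) where
  irr := fun x h => by omega
  trans := fun x y z h h' => by omega
  total := fun x y h => by
    by_contra hc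
    exact h (ext20 (by omega) (by omega))

/-- the next point in the row by row order -/
lemma next_row {n : ℕ} (x y : Fin n × Fin n) :
    (((x.2 : ℕ) < y.2 ∨ (x.2 : ℕ) = y.2 ∧ (x.1 : ℕ) < y.1) ∧
      (∀ z : Fin n × Fin n, ¬ (((x.2 : ℕ) < z.2 ∨ (x.2 : ℕ) = z.2 ∧ (x.1 : ℕ) < z.1) ∧
        ((z.2 : ℕ) < y.2 ∨ (z.2 : ℕ) = y.2 ∧ (z.1 : ℕ) < y.1))) ∧ ¬ (x.1 : ℕ) + 1 = n) ↔ gh n x y := by
  constructor
  · rintro ⟨h1, h2, h3⟩
    have h4 : (x.1 : ℕ) + 1 < n := by have := x.1.is_lt; omega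
    have h5 : ¬ ((x.2 : ℕ) < y.2 ∨ (x.2 : ℕ) = y.2 ∧ (x.1 : ℕ) + 1 < y.1) := fun h =>
      h2 (⟨(x.1 : ℕ) + 1, h4⟩, x.2) ⟨Or.inr ⟨rfl, Nat.lt_succ_self _⟩, h⟩
    show (x.1 : ℕ) + 1 = y.1 ∧ (x.2 : ℕ) = y.2
    omega
  · rintro ⟨h1, h2⟩
    refine ⟨by omega, fun z hz => by omega, ?_⟩
    have := y.1.is_lt
    omega

/-- the next point in the column by column order -/
lemma next_col {n : ℕ} (x y : Fin n × Fin n) :
    (((x.1 : ℕ) < y.1 ∨ (x.1 : ℕ) = y.1 ∧ (x.2 : ℕ) < y.2) ∧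
      (∀ z : Fin n × Fin n, ¬ (((x.1 : ℕ) < z.1 ∨ (x.1 : ℕ) = z.1 ∧ (x.2 : ℕ) < z.2) ∧
        ((z.1 : ℕ) < y.1 ∨ (z.1 : ℕ) = y.1 ∧ (z.2 : ℕ) < y.2))) ∧ ¬ (x.2 : ℕ) + 1 = n) ↔ gu n x y := by
  constructor
  · rintro ⟨h1, h2, h3⟩
    have h4 : (x.2 : ℕ) + 1 < n := by have := x.2.is_lt; omega
    have h5 : ¬ ((x.1 : ℕ) < y.1 ∨ (x.1 : ℕ) = y.1 ∧ (x.2 : ℕ) + 1 < y.2) := fun h =>
      h2 (x.1, ⟨(x.2 : ℕ) + 1, h4⟩) ⟨Or.inr ⟨rfl, Nat.lt_succ_self _⟩, h⟩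
    show (x.1 : ℕ) = y.1 ∧ (x.2 : ℕ) + 1 = y.2
    omega
  · rintro ⟨h1, h2⟩
    refine ⟨by omega, fun z hz => by omega, ?_⟩
    have := y.2.is_lt
    omega

theorem t_LL : StmtLL := by
  refine ⟨2, codeLL, fun n hn => ⟨Fin n × Fin n, inferInstance, llR n, llS n,
    ⟨lin_row n, lin_col n⟩, trivial, Equiv.subtypeUnivEquiv (fun _ => trivial), ?_, ?_⟩⟩
  · intro x y
    have e2 : ∀ a, mkM 2 (llR n) (llS n) 2 a a ↔ (a.1 : ℕ) + 1 = n := fun a =>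
      (mkM_mark (llR n) (llS n) 0 a a).trans ⟨fun h => h.2, fun h => ⟨rfl, h⟩⟩
    show llH _ _ x.1 y.1 ↔ gh n x.1 y.1
    rw [← next_row x.1 y.1]
    exact and_congr Iff.rfl (and_congr Iff.rfl (not_congr (e2 _)))
  · intro x y
    have e3 : ∀ a, mkM 2 (llR n) (llS n) 3 a a ↔ (a.2 : ℕ) + 1 = n := fun a =>
      (mkM_mark (llR n) (llS n) 1 a a).trans ⟨fun h => h.2, fun h => ⟨rfl, h⟩⟩
    show llU _ _ x.1 y.1 ↔ gu n x.1 y.1
    rw [← next_col x.1 y.1]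
    exact and_congr Iff.rfl (and_congr Iff.rfl (not_congr (e3 _)))

end Pool.Agent.Helper94.TV2
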